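import Mathlib

/-!
# Geodesics in flip graphs of `k`-triangulations may flip common edges

Two `2`-triangulations of the convex octagon with a common edge, at flip distance four, and a
shortest path between them which flips the common edge.
-/

set_option autoImplicit false

namespace Pool.Agent.Results.MP_1d99bd_co.CommonEdgeFlip

/-- An edge (side or diagonal) of the convex polygon whose vertices are `0, …, n - 1` in cyclic
order: the edge joining `i` and `j`, `i < j`, is the pair `(i, j)`. -/
abbrev Edge (n : ℕ) : Type := {e : Fin n × Fin n // e.1 < e.2}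

/-- Two edges cross: their ends alternate around the polygon. -/
def Crosses {n : ℕ} (e f : Edge n) : Prop :=
  (e.1.1 < f.1.1 ∧ f.1.1 < e.1.2 ∧ e.1.2 < f.1.2) ∨
    (f.1.1 < e.1.1 ∧ e.1.1 < f.1.2 ∧ f.1.2 < e.1.2)

/-- The set `T` of edges contains no `k + 1` mutually crossing edges. -/
def CrossingFree {n : ℕ} (k : ℕ) (T : Finset (Edge n)) : Prop :=
  ∀ S : Finset (Edge n), S ⊆ T → S.card = k + 1 → ¬ (S : Set (Edge n)).Pairwise Crosses

/-- A `k`-triangulation of the convex `n`-gon: a maximal set of edges which contains no `k + 1`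
mutually crossing edges. -/
structure KTriangulation (k n : ℕ) where
  edges : Finset (Edge n)
  maximal : Maximal (CrossingFree k) edges

/-- The flip graph: two `k`-triangulations are adjacent when they differ by the exchange of one
edge. -/
def flipGraph (k n : ℕ) : SimpleGraph (KTriangulation k n) where
  Adj T U := ∃ e f : Edge n, T.edges \ U.edges = {e} ∧ U.edges \ T.edges = {f}
  symm := ⟨fun _ _ ⟨e, f, h1, h2⟩ => ⟨f, e, h2, h1⟩⟩
  loopless := ⟨fun T ⟨e, _, h, _⟩ => by simp at h⟩

instance {n : ℕ} (e f : Edge n) : Decidable (Crosses e f) := by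
  unfold Crosses; infer_instance

theorem Crosses.symm {n : ℕ} {e f : Edge n} (h : Crosses e f) : Crosses f e := by
  unfold Crosses at *; tauto

theorem Crosses.ne {n : ℕ} {e f : Edge n} (h : Crosses e f) : e ≠ f := by
  rintro rfl
  rcases h with h | h
  · exact lt_irrefl _ h.1
  · exact lt_irrefl _ h.1

theorem crossingFree_two {n : ℕ} (T : Finset (Edge n)) :
    CrossingFree 2 T ↔ ∀ e : Edge n, e ∈ T → ∀ f : Edge n, f ∈ T → Crosses e f →
      ∀ g : Edge n, g ∈ T → Crosses e g → ¬ Crosses f g := by
  constructor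
  · intro h e he f hf hef g hg heg hfg
    refine h {e, f, g} ?_ ?_ ?_
    · intro x hx
      simp only [Finset.mem_insert, Finset.mem_singleton] at hx
      rcases hx with rfl | rfl | rfl <;> assumption
    · rw [Finset.card_insert_of_notMem, Finset.card_insert_of_notMem, Finset.card_singleton]
      · simpa using hfg.ne
      · simp only [Finset.mem_insert, Finset.mem_singleton, not_or]
        exact ⟨hef.ne, heg.ne⟩
    · intro x hx y hy hxy
      simp only [Finset.coe_insert, Finset.coe_singleton, Set.mem_insert_iff,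
        Set.mem_singleton_iff] at hx hy
      rcases hx with rfl | rfl | rfl <;> rcases hy with rfl | rfl | rfl <;>
        first
          | exact absurd rfl hxy
          | assumption
          | exact hef.symm
          | exact heg.symm
          | exact hfg.symm
  · intro h S hS hc hp
    obtain ⟨e, f, g, h1, h2, h3, rfl⟩ := Finset.card_eq_three.1 hc
    have me : e ∈ ({e, f, g} : Finset (Edge n)) := by simp
    have mf : f ∈ ({e, f, g} : Finset (Edge n)) := by simp
    have mg : g ∈ ({e, f, g} : Finset (Edge n)) := by simp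
    exact h e (hS me) f (hS mf) (hp me mf h1) g (hS mg) (hp me mg h2) (hp mf mg h3)

/-- The set of all edges of the octagon except the listed ones. -/
def mk (l : List (ℕ × ℕ)) : Finset (Edge 8) :=
  Finset.univ.filter fun e => ((e.1.1 : ℕ), (e.1.2 : ℕ)) ∉ l

/-- No three mutually crossing edges, in a form suited to evaluation. -/
def Free (T : Finset (Edge 8)) : Prop :=
  ∀ e : Edge 8, e ∈ T → ∀ f : Edge 8, f ∈ T → Crosses e f →
    ∀ g : Edge 8, g ∈ T → Crosses e g → ¬ Crosses f g

/-- Maximality, in a form suited to evaluation. -/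
def Max (T : Finset (Edge 8)) : Prop :=
  ∀ e : Edge 8, e ∉ T → ∃ f : Edge 8, f ∈ T ∧ Crosses e f ∧
    ∃ g : Edge 8, g ∈ T ∧ Crosses e g ∧ Crosses f g

instance (T : Finset (Edge 8)) : Decidable (Free T) := by
  unfold Free; infer_instance

instance (T : Finset (Edge 8)) : Decidable (Max T) := by
  unfold Max; infer_instance

theorem max_of {T : Finset (Edge 8)} (h1 : Free T) (h2 : Max T) :
    Maximal (CrossingFree 2) T := by
  refine ⟨(crossingFree_two T).2 h1, ?_⟩
  intro U hU hTU e he
  by_contra hne
  obtain ⟨f, hf, hef, g, hg, heg, hfg⟩ := h2 e hne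
  exact (crossingFree_two U).1 hU e he f (hTU hf) hef g (hTU hg) heg hfg

/-- `0`–`3`, `0`–`4`, `1`–`4`, `1`–`5`, `1`–`6`, `4`–`7` and all short edges -/
def T0 : KTriangulation 2 8 :=
  ⟨mk [(0, 5), (2, 5), (2, 6), (2, 7), (3, 6), (3, 7)], max_of (by decide +kernel) (by decide +kernel)⟩

def T1 : KTriangulation 2 8 :=
  ⟨mk [(0, 5), (1, 5), (2, 5), (2, 6), (2, 7), (3, 7)], max_of (by decide +kernel) (by decide +kernel)⟩

def T2 : KTriangulation 2 8 :=
  ⟨mk [(0, 3), (0, 5), (1, 5), (2, 5), (2, 7), (3, 7)], max_of (by decide +kernel) (by decide +kernel)⟩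

def T3 : KTriangulation 2 8 :=
  ⟨mk [(0, 3), (0, 4), (0, 5), (1, 5), (2, 5), (3, 7)], max_of (by decide +kernel) (by decide +kernel)⟩

/-- `1`–`4`, `1`–`5`, `1`–`6`, `2`–`6`, `2`–`7`, `3`–`6` and all short edges -/
def T4 : KTriangulation 2 8 :=
  ⟨mk [(0, 3), (0, 4), (0, 5), (2, 5), (3, 7), (4, 7)], max_of (by decide +kernel) (by decide +kernel)⟩

theorem adj01 : (flipGraph 2 8).Adj T0 T1 :=
  ⟨⟨(1, 5), by decide⟩, ⟨(3, 6), by decide⟩, by decide +kernel, by decide +kernel⟩

theorem adj12 : (flipGraph 2 8).Adj T1 T2 :=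
  ⟨⟨(0, 3), by decide⟩, ⟨(2, 6), by decide⟩, by decide +kernel, by decide +kernel⟩

theorem adj23 : (flipGraph 2 8).Adj T2 T3 :=
  ⟨⟨(0, 4), by decide⟩, ⟨(2, 7), by decide⟩, by decide +kernel, by decide +kernel⟩

theorem adj34 : (flipGraph 2 8).Adj T3 T4 :=
  ⟨⟨(4, 7), by decide⟩, ⟨(1, 5), by decide⟩, by decide +kernel, by decide +kernel⟩

/-- The path `T0, T1, T2, T3, T4`. -/
def path : (flipGraph 2 8).Walk T0 T4 :=
  .cons adj01 (.cons adj12 (.cons adj23 (.cons adj34 .nil)))

theorem edges_of_adj {V W : KTriangulation 2 8} {e f : Edge 8} (h1 : V.edges \ W.edges = {e})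
    (h2 : W.edges \ V.edges = {f}) : W.edges = insert f (V.edges.erase e) := by
  ext x
  have hx1 : x ∈ V.edges \ W.edges ↔ x = e := by rw [h1]; simp
  have hx2 : x ∈ W.edges \ V.edges ↔ x = f := by rw [h2]; simp
  rw [Finset.mem_sdiff] at hx1 hx2
  rw [Finset.mem_insert, Finset.mem_erase]
  tauto

theorem potential_le (U : KTriangulation 2 8) {V W : KTriangulation 2 8}
    (h : (flipGraph 2 8).Adj V W) :
    (V.edges \ U.edges).card ≤ (W.edges \ U.edges).card + 1 := by
  obtain ⟨e, f, h1, h2⟩ := h
  have hsub : V.edges \ U.edges ⊆ insert e (W.edges \ U.edges) := by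
    intro x hx
    rw [Finset.mem_sdiff] at hx
    rw [Finset.mem_insert, Finset.mem_sdiff]
    by_cases hxW : x ∈ W.edges
    · exact Or.inr ⟨hxW, hx.2⟩
    · left
      have : x ∈ V.edges \ W.edges := Finset.mem_sdiff.2 ⟨hx.1, hxW⟩
      rw [h1] at this
      simpa using this
  exact (Finset.card_le_card hsub).trans (Finset.card_insert_le _ _)

theorem potential_le_length {V U : KTriangulation 2 8} (p : (flipGraph 2 8).Walk V U) :
    (V.edges \ U.edges).card ≤ p.length := by
  induction p with
  | nil => simp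
  | @cons V W U h q ih =>
    have h1 := potential_le U h
    rw [SimpleGraph.Walk.length_cons]
    omega

theorem potential_T0 : (T0.edges \ T4.edges).card = 3 := by decide +kernel

/-- No exchange of an edge of `T0` not in `T4` for an edge of `T4` not in `T0` is possible. -/
theorem no_exchange : ∀ e ∈ T0.edges \ T4.edges, ∀ f ∈ T4.edges \ T0.edges,
    ¬ Free (insert f (T0.edges.erase e)) := by
  decide +kernel

theorem four_le {V : KTriangulation 2 8} (h : (flipGraph 2 8).Adj T0 V) :
    3 ≤ (V.edges \ T4.edges).card := by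
  obtain ⟨e, f, h1, h2⟩ := h
  have hV := edges_of_adj h1 h2
  have he : e ∈ T0.edges := by
    have : e ∈ T0.edges \ V.edges := by rw [h1]; simp
    exact (Finset.mem_sdiff.1 this).1
  have hf : f ∉ T0.edges := by
    have : f ∈ V.edges \ T0.edges := by rw [h2]; simp
    exact (Finset.mem_sdiff.1 this).2
  have hfree : Free V.edges := (crossingFree_two _).1 V.maximal.1
  rw [hV] at hfree
  have h3 := potential_T0
  by_cases heT : e ∈ T4.edges
  · have hsub : T0.edges \ T4.edges ⊆ V.edges \ T4.edges := by
      intro x hx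
      rw [Finset.mem_sdiff] at hx ⊢
      refine ⟨?_, hx.2⟩
      rw [hV, Finset.mem_insert, Finset.mem_erase]
      refine Or.inr ⟨?_, hx.1⟩
      rintro rfl
      exact hx.2 heT
    have := Finset.card_le_card hsub
    omega
  · by_cases hfT : f ∈ T4.edges
    · exact absurd hfree (no_exchange e (Finset.mem_sdiff.2 ⟨he, heT⟩) f
        (Finset.mem_sdiff.2 ⟨hfT, hf⟩))
    · have hsub : insert f ((T0.edges \ T4.edges).erase e) ⊆ V.edges \ T4.edges := by
        intro x hx
        rw [Finset.mem_insert, Finset.mem_erase, Finset.mem_sdiff] at hx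
        rw [Finset.mem_sdiff, hV, Finset.mem_insert, Finset.mem_erase]
        rcases hx with rfl | ⟨hx1, hx2, hx3⟩
        · exact ⟨Or.inl rfl, hfT⟩
        · exact ⟨Or.inr ⟨hx1, hx2⟩, hx3⟩
      have h4 := Finset.card_le_card hsub
      rw [Finset.card_insert_of_notMem, Finset.card_erase_of_mem, h3] at h4
      · omega
      · exact Finset.mem_sdiff.2 ⟨he, heT⟩
      · rw [Finset.mem_erase, Finset.mem_sdiff]
        exact fun hh => hf hh.2.1

theorem length_ge (p : (flipGraph 2 8).Walk T0 T4) : 4 ≤ p.length := by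
  generalize hV : T0 = V at p
  cases p with
  | nil =>
    have h := potential_T0
    rw [hV] at h
    simp at h
  | cons h q =>
    subst hV
    have h1 := four_le h
    have h2 := potential_le_length q
    rw [SimpleGraph.Walk.length_cons]
    omega

theorem dist_eq : (flipGraph 2 8).dist T0 T4 = 4 := by
  apply le_antisymm
  · exact (SimpleGraph.dist_le path).trans (by simp [path])
  · obtain ⟨p, hp⟩ := (path.reachable).exists_walk_length_eq_dist
    rw [← hp]
    exact length_ge p

/-- There are two `2`-triangulations `T`, `U` of the convex octagon, an edge `e` belonging to both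
and a shortest path from `T` to `U` in the flip graph with a step which flips `e`. -/
theorem result : ∃ (T U : KTriangulation 2 8) (p : (flipGraph 2 8).Walk T U) (e : Edge 8),
    e ∈ T.edges ∧ e ∈ U.edges ∧ p.length = (flipGraph 2 8).dist T U ∧
      ∃ d ∈ p.darts, d.fst.edges \ d.snd.edges = {e} := by
  refine ⟨T0, T4, path, ⟨(1, 5), by decide⟩, by decide +kernel, by decide +kernel, ?_,
    ⟨(T0, T1), adj01⟩, by simp [path], by decide +kernel⟩
  rw [dist_eq]
  simp [path]

end Pool.Agent.Results.MP_1d99bd_co.CommonEdgeFlip
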